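import Pool.Agent.LPV.Stmts
import Pool.Agent.Helper15_LPK.PAI

/-!
# Row PAV of squad LPV (MP_37fa12_co): the conditions for pairs
-/

set_option autoImplicit false

noncomputable section

open MeasureTheory Filter Topology
open scoped RealInnerProductSpace

namespace Pool.Agent.LPV.H15

open Pool.Agent.LPK Pool.Agent.LPV

theorem zk_neg {l : ℕ} (hl : l % 2 = 0) (z : List ℤ) (A B H : ℝ) :
    zk l z A B (-H) = zk l z A B H := by
  unfold zk
  refine Finset.sum_congr rfl (fun j hj => ?_)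
  have hj' : j ≤ l / 2 := by
    have := Finset.mem_range.1 hj
    omega
  have he : Even (l - 2 * j) := by
    rw [Nat.even_iff]
    omega
  rw [he.neg_pow]

theorem zk_symm (l : ℕ) (z : List ℤ) (A B H : ℝ) : zk l z A B H = zk l z B A H := by
  unfold zk
  rw [mul_comm A B]

theorem LL_neg (D : DW) {n : ℕ} (hP : ∀ A B H : ℝ, e3 D.P A B (-H) = e3 D.P A B H)
    (hz : ∀ d ∈ D.pl, Hz n d.1 d.2.1) (A B H : ℝ) : D.LL A B (-H) = D.LL A B H := by
  have h3 : D.KL A B (-H) = D.KL A B H := by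
    unfold DW.KL
    congr 1
    refine List.map_congr_left (fun d _ => ?_)
    have e1' : A + B + 2 * -H = A + B - 2 * H := by ring
    have e2' : A + B - 2 * -H = A + B + 2 * H := by ring
    rw [e1', e2', Pool.Agent.LPK.H15.K2_symm, zk_symm]
  have h1 : D.K A B (-H) = D.K A B H := by
    unfold DW.K
    congr 2
    refine List.map_congr_left (fun d hd => ?_)
    rw [zk_neg (hz d hd).1]
  have h2 : D.KW A B (-H) = D.KW A B H := by
    unfold DW.KW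
    congr 1
    refine List.map_congr_left (fun d _ => ?_)
    have e1' : A + B + 2 * -H = A + B - 2 * H := by ring
    have e2' : A + B - 2 * -H = A + B + 2 * H := by ring
    rw [e1', e2', mul_comm (e1 d.2.2.2 (A + B - 2 * H))]
  unfold DW.LL
  rw [hP, h1, h2, h3]

/-- one of the two lattices -/
theorem gen0 {n : ℕ} {b : Fin n → V n} {μ : ℝ} (hμ : 0 ≤ μ)
    (hadd : ∀ a c : Fin n → ℤ, pt b (a + c) = pt b a + pt b c ∧ pt b (a - c) = pt b a - pt b c)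
    (hdbl : ∀ a : Fin n → ℤ, pt b (2 • a) = (2 : ℝ) • pt b a) (hM : Mu μ b)
    {L : ℝ → ℝ → ℝ → ℝ} (hL : ∀ A B H, L A B (-H) = L A B H)
    (h1 : ∀ A B H : ℝ, μ ≤ A → μ ≤ B → 0 ≤ H → μ ≤ A + B - 2 * H → H ^ 2 ≤ A * B →
      L A B H + L B A H ≤ 0)
    (a a' : Fin n → ℤ) (ha : a ≠ 0) (ha' : a' ≠ 0) (hne : a ≠ a') (hne' : a ≠ -a') :
    L (‖pt b a‖ ^ 2) (‖pt b a'‖ ^ 2) ⟪pt b a, pt b a'⟫ * (G (pt b a) * G (pt b a')) +
    L (‖pt b a'‖ ^ 2) (‖pt b a‖ ^ 2) ⟪pt b a', pt b a⟫ * (G (pt b a') * G (pt b a)) ≤ 0 := by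
  have h := Pool.Agent.LPK.H15.gen (L := L) (C := fun _ _ => 0) hadd hdbl hM hL
    (fun _ _ => rfl) h1
    (fun A B H hA hB hH h4 hcs => by
      have := h1 A B H hA hB hH (by linarith) hcs
      linarith) a a' ha ha' hne hne'
  simpa only [mul_zero, add_zero] using h

/-- row PAV -/
theorem pav (hE : EvaStmt) (hD : DuaStmt) : PavStmt := by
  intro n κ D μ ν hc b b' hdu hM hN
  obtain ⟨hdu', hin, _, hadd, hdbl⟩ := hD n κ b b' hdu
  obtain ⟨_, _, _, hadd', hdbl'⟩ := hD n κ⁻¹ b' b hdu'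
  obtain ⟨_, _, _, _, hT, hev⟩ := hE
  refine ⟨?_, ?_, ?_⟩
  · intro a a' ha ha' hne hne'
    exact gen0 (L := D.LL) hc.pos.le (fun a c => ⟨(hadd a c).1, (hadd a c).2.1⟩) hdbl hM
      (fun A B H => LL_neg D (fun A B H => hev D.P A B H hc.evP) hc.hz A B H) hc.ll
      a a' ha ha' hne hne'
  · intro a a' ha ha' hne hne'
    exact gen0 (L := D.SS) hc.nng (fun a c => ⟨(hadd' a c).1, (hadd' a c).2.1⟩) hdbl' hN
      (fun A B H => hev D.Q A B H hc.evQ) hc.ss a a' ha ha' hne hne'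
  · intro a c ha hcc
    have hA := hM a ha
    have hB := hN c hcc
    obtain ⟨k, hk⟩ : ∃ k : ℤ, k = ∑ i, a i * c i := ⟨_, rfl⟩
    have hx : (⟪pt b a, pt b' c⟫ : ℝ) = 2 * Real.pi * (k : ℝ) := by
      rw [hin a c, hk]
    have hab : |(⟪pt b a, pt b' c⟫ : ℝ)| = 2 * Real.pi * (k.natAbs : ℝ) := by
      rw [hx, abs_mul, abs_of_pos (by positivity : (0:ℝ) < 2 * Real.pi), Nat.cast_natAbs,
        Int.cast_abs]
    have hLS : D.LS n κ (‖pt b a‖ ^ 2) (‖pt b' c‖ ^ 2) ⟪pt b a, pt b' c⟫ =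
        D.LS n κ (‖pt b a‖ ^ 2) (‖pt b' c‖ ^ 2) (2 * Real.pi * (k.natAbs : ℝ)) := by
      rw [← hab]
      refine Pool.Agent.LPK.H15.even_abs (f := D.LS n κ (‖pt b a‖ ^ 2) (‖pt b' c‖ ^ 2))
        (fun H => ?_) _
      unfold DW.LS
      rw [hev _ _ _ _ (hT n D.P hc.evP), hev _ _ _ _ (hT n D.Q hc.evQ)]
    have hsq : (2 * Real.pi * (k.natAbs : ℝ)) ^ 2 ≤ ‖pt b a‖ ^ 2 * ‖pt b' c‖ ^ 2 := by
      rw [← hab]
      exact Pool.Agent.LPK.H15.inner_sq_le _ _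
    have h := hc.mx _ _ k.natAbs hA hB hsq
    unfold gLS
    show D.LS n κ (‖pt b a‖ ^ 2) (‖pt b' c‖ ^ 2) ⟪pt b a, pt b' c⟫ *
      (G (pt b a) * G (pt b' c)) ≤ 0
    rw [hLS]
    exact mul_nonpos_of_nonpos_of_nonneg h
      (mul_pos (Pool.Agent.LPK.H15.G_pos _) (Pool.Agent.LPK.H15.G_pos _)).le

end Pool.Agent.LPV.H15
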